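import Pool.Agent.H30.LT.Targets
import Pool.Agent.H86.AX.CU3

/-!
# Board al_modules, row CU5: the inequality for one curve
-/

set_option autoImplicit false

namespace Pool.Agent.H70.LT.CU5

open MvPolynomial SC Pool.Agent.H27.LV Pool.Agent.H30.AV Pool.Agent.H30.AW Pool.Agent.H30.AX
  Pool.Agent.H30.LT

/-- rounding up -/
private lemma exists_ceil {m : ℕ} (hm : 2 ≤ m) (N : ℤ) : ∃ o : ℤ, 0 ≤ o ∧ N ≤ m * o ∧
    ∀ u : ℤ, 0 ≤ u → N ≤ m * u → o ≤ u := by
  have hm0 : (0 : ℤ) < m := by exact_mod_cast (by omega : 0 < m)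
  refine ⟨max 0 (-((-N) / m)), le_max_left _ _, ?_, ?_⟩
  · have h1 : (m : ℤ) * ((-N) / m) ≤ -N := Int.mul_ediv_self_le hm0.ne'
    have h2 : (m : ℤ) * (-((-N) / m)) ≤ m * max 0 (-((-N) / m)) :=
      mul_le_mul_of_nonneg_left (le_max_right _ _) hm0.le
    linarith
  · intro u hu hN
    refine max_le hu ?_
    have h1 : -u ≤ (-N) / m := by
      rw [Int.le_ediv_iff_mul_le hm0]
      linarith
    linarith

/-- the tangent lines give antisymmetric matrices of rank two -/
private lemma rk2_lift {k K : Type} [Field k] [Field K] [Algebra k K] {n : ℕ} (y : Fin n → K)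
    (D : Derivation k K K) : Rk2 (lift2 y D) := by
  refine ⟨fun i => ?_, fun i j => ?_, fun i j l m => ?_⟩
  · simp only [lift2, wed]
    ring
  · simp only [lift2, wed]
    ring
  · simp only [lift2, wed]
    ring

/-- a nonzero entry -/
private lemma exists_entry {k K : Type} [Field k] [Field K] [Algebra k K] {n : ℕ}
    {y : Fin n → K} {D : Derivation k K K} (h : ∃ j, D (y j) ≠ 0) :
    ∃ p, lift2 y D p ≠ 0 := by
  obtain ⟨j, hj⟩ := h
  refine ⟨(0, j.succ), ?_⟩
  have h1 : lift2 y D (0, j.succ) = D (y j) := by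
    simp only [lift2, wed, xx, Fin.cons_zero, Fin.cons_succ]
    rw [Derivation.map_one_eq_zero]
    ring
  rwa [h1]

/-- an entry of least order -/
private lemma exists_min {k K : Type} [Field k] [Field K] [Algebra k K] {n : ℕ} (v : DV k K)
    {W : Zw n → K} (h : ∃ p, W p ≠ 0) : ∃ p₀, W p₀ ≠ 0 ∧ ∀ s, ge v (v.ord (W p₀)) (W s) := by
  classical
  obtain ⟨p, hp⟩ := h
  obtain ⟨p₀, h1, h2⟩ := (Finset.univ.filter fun p => W p ≠ 0).exists_min_image
    (fun p => v.ord (W p)) ⟨p, Finset.mem_filter.2 ⟨Finset.mem_univ _, hp⟩⟩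
  refine ⟨p₀, (Finset.mem_filter.1 h1).2, fun s => ?_⟩
  by_cases hs : W s = 0
  · exact Or.inl hs
  · exact Or.inr (h2 s (Finset.mem_filter.2 ⟨Finset.mem_univ _, hs⟩))

/-- the bilinear form with a basis vector -/
private lemma bil_single {k K : Type} [Field k] [Field K] [Algebra k K] {n : ℕ}
    (W : Zw n → K) (a : Fin (n + 1) → k) (s : Fin (n + 1)) :
    bil (evk K (Pi.single s (1 : k))) W (evk K a) = ∑ t, W (s, t) * algebraMap k K (a t) := by
  classical
  unfold bil evk
  rw [Finset.sum_eq_single s]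
  · refine Finset.sum_congr rfl fun t _ => ?_
    rw [Pi.single_eq_same, map_one, one_mul]
  · intro s' _ hs'
    refine Finset.sum_eq_zero fun t _ => ?_
    rw [Pi.single_eq_of_ne hs', map_zero, zero_mul, zero_mul]
  · intro h
    exact absurd (Finset.mem_univ s) h

/-- the local inequality -/
private lemma local_ineq (hLO5 : T_LO5) {k K : Type} [Field k] [Field K] [Algebra k K]
    {v : DV k K} {m n q r M w : ℕ} (hm : 2 ≤ m) {a : Fin q → Fin (n + 1) → k} {W : Zw n → K}
    {κ : ℤ} {lm : Fin q → ℤ} {G : MvPolynomial (Lw q n) (MvPolynomial (Zw n) k)}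
    (hRk : Rk2 W) (hW : ∃ p, W p ≠ 0) (hκ : ∀ p, ge v κ (W p)) (hlm : ∀ i, 0 ≤ lm i)
    (hbil : ∀ i s, (∑ t, W (s, t) * algebraMap k K (a i t)) = 0 ∨
      m * κ + (m - 1) * lm i ≤ m * v.ord (∑ t, W (s, t) * algebraMap k K (a i t)))
    (hI : ∀ I : Finset (Fin q), (∀ i ∈ I, 0 < lm i) → I.card ≤ r) (hwr : w * r ≤ M)
    (hG : HomC M G) (hz : ∀ i, sz W G ∈ nI W q i ^ w) (hne : aeval W (spa a G) ≠ 0) :
    m * (M : ℤ) * κ + w * ((m - 1) * ∑ i, lm i) ≤ m * v.ord (aeval W (spa a G)) := by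
  classical
  obtain ⟨⟨p, p'⟩, hp, hmin⟩ := exists_min v hW
  obtain ⟨μ₀, hμ⟩ : ∃ μ₀, μ₀ = v.ord (W (p, p')) := ⟨_, rfl⟩
  rw [← hμ] at hmin
  have hκμ : κ ≤ μ₀ := by
    rw [hμ]
    exact (hκ (p, p')).resolve_left hp
  have hm0 : (0 : ℤ) < m := by exact_mod_cast (by omega : 0 < m)
  -- the numbers `o i`
  have hex : ∀ i, ∃ o : ℤ, 0 ≤ o ∧ (0 < lm i → (m - 1) * lm i - m * (μ₀ - κ) ≤ m * o) ∧
      ∀ s, ge v (μ₀ + o) (∑ t, W (s, t) * algebraMap k K (a i t)) := by
    intro i
    have hge : ∀ s, ge v μ₀ (∑ t, W (s, t) * algebraMap k K (a i t)) := by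
      intro s
      refine ge_sum v _ _ _ fun t _ => ?_
      exact ((hmin (s, t)).mul (ge_const v (a i t))).mono (by omega)
    by_cases hl : 0 < lm i
    · obtain ⟨o, ho1, ho2, ho3⟩ := exists_ceil hm ((m - 1) * lm i - m * (μ₀ - κ))
      refine ⟨o, ho1, fun _ => ho2, fun s => ?_⟩
      rcases hbil i s with h | h
      · exact Or.inl h
      by_cases h0 : (∑ t, W (s, t) * algebraMap k K (a i t)) = 0
      · exact Or.inl h0
      have h1 := (hge s).resolve_left h0
      right
      have h2 := ho3 (v.ord (∑ t, W (s, t) * algebraMap k K (a i t)) - μ₀) (by omega)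
        (by linarith)
      omega
    · refine ⟨0, le_rfl, fun h => absurd h hl, fun s => ?_⟩
      rw [add_zero]
      exact hge s
  choose o ho1 ho2 ho3 using hex
  have h1 := hLO5 k K n q w M v W p p' μ₀ a G o hRk hp hμ.symm hmin hG hz ho1 ho3
  have h2 := h1.resolve_left hne
  -- the sum of the `o i`
  have h3 : (m - 1) * ∑ i, lm i - r * (m * (μ₀ - κ)) ≤ m * ∑ i, o i := by
    have h4 : ∑ i, lm i = ∑ i ∈ Finset.univ.filter (fun i => 0 < lm i), lm i := by
      rw [Finset.sum_filter]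
      refine Finset.sum_congr rfl fun i _ => ?_
      split_ifs with h
      · rfl
      · exact le_antisymm (not_lt.1 h) (hlm i)
    have h5 : ∑ i ∈ Finset.univ.filter (fun i => 0 < lm i), o i ≤ ∑ i, o i :=
      Finset.sum_le_sum_of_subset_of_nonneg (Finset.filter_subset _ _) fun i _ _ => ho1 i
    have h6 : ∑ i ∈ Finset.univ.filter (fun i => 0 < lm i), ((m - 1) * lm i - m * (μ₀ - κ)) ≤
        ∑ i ∈ Finset.univ.filter (fun i => 0 < lm i), m * o i :=
      Finset.sum_le_sum fun i hi => ho2 i (Finset.mem_filter.1 hi).2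
    have h7 := hI (Finset.univ.filter fun i => 0 < lm i) fun i hi => (Finset.mem_filter.1 hi).2
    rw [Finset.sum_sub_distrib, ← Finset.mul_sum, Finset.sum_const, nsmul_eq_mul, ← h4,
      ← Finset.mul_sum] at h6
    have h8 : ((Finset.univ.filter fun i => 0 < lm i).card : ℤ) * (m * (μ₀ - κ)) ≤
        r * (m * (μ₀ - κ)) := by
      refine mul_le_mul_of_nonneg_right (by exact_mod_cast h7) ?_
      exact mul_nonneg hm0.le (by omega)
    have h9 := mul_le_mul_of_nonneg_left h5 hm0.le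
    linarith
  have h4 : (w : ℤ) * ((m - 1) * ∑ i, lm i - r * (m * (μ₀ - κ))) ≤ w * (m * ∑ i, o i) :=
    mul_le_mul_of_nonneg_left h3 (Nat.cast_nonneg w)
  have h5 : ((w * r : ℕ) : ℤ) * (m * (μ₀ - κ)) ≤ M * (m * (μ₀ - κ)) := by
    refine mul_le_mul_of_nonneg_right (by exact_mod_cast hwr) ?_
    exact mul_nonneg hm0.le (by omega)
  have h6 := mul_le_mul_of_nonneg_left h2 hm0.le
  push_cast at h5
  linarith

theorem pf_CU5 (hLO3 : T_LO3) (hLO5 : T_LO5) (hPFM : T_PFM) (hDFI : T_DFI) (hPFI : T_PFI)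
    (hKER : T_KER) : T_CU5 := by
  intro k K _ _ _ _ _ _ htr m n q r M w a S y D G hm hD hy hO hI hwr hG hz hne
  classical
  have hlift : ∀ (v : DV k K) p, ge v (kp D S y v) (lift2 y D p) := by
    intro v p
    obtain ⟨a', ha, hv⟩ := Pool.Agent.H86.AX.exists_lam v y
    have hfin : {u : DV k K | lam u y a' ≠ 0}.Finite := by
      refine ((hPFM k K htr (ell a' (xx y))).1.union (hPFI k K htr (Fin n) y)).subset
        fun u hu => ?_
      by_contra hcon
      rw [Set.mem_union, not_or] at hcon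
      apply hu
      have h1 : u.ord (ell a' (xx y)) = 0 := not_not.1 hcon.1
      have h2 : poleOrder u y = 0 := not_not.1 hcon.2
      rw [lam, h1, h2]
      rfl
    have hOrb : Orb m (S ∪ hfin.toFinset) y a' := by
      refine ⟨ha, fun u hu => Or.inl ?_⟩
      by_contra h1
      apply hu
      rw [Finset.mem_union, Set.Finite.mem_toFinset]
      exact Or.inr h1
    have h1 := (hLO3 k K htr n m a' 0 (S ∪ hfin.toFinset) y D hD hm hOrb v).2.1 p
    have h2 : kp D (S ∪ hfin.toFinset) y v = kp D S y v := by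
      unfold kp
      have h3 : v ∈ S ∪ hfin.toFinset ↔ v ∈ S := by
        rw [Finset.mem_union, Set.Finite.mem_toFinset]
        exact ⟨fun h4 => h4.resolve_right fun h5 => h5 hv, Or.inl⟩
      simp only [h3]
    rwa [h2] at h1
  have hent : ∃ p, lift2 y D p ≠ 0 := by
    refine exists_entry ?_
    obtain ⟨j, hj⟩ := hy
    exact ⟨j, fun h => hj (hKER k K htr D hD (y j) h)⟩
  refine Pool.Agent.H86.AW.global_core hPFM hDFI hPFI htr (a := a)
    (Θ := aeval (lift2 y D) (spa a G)) (κ := kp D S y) hD ?_ fun v => ?_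
  · intro T hST _
    simp only [kp]
    rw [Finset.sum_sub_distrib, Finset.sum_sub_distrib, ← Finset.sum_filter, ← Finset.mul_sum]
    have h1 : T.filter (fun v => v ∈ S) = S := by
      ext v
      simp only [Finset.mem_filter]
      exact ⟨fun h => h.2, fun h => ⟨hST h, h⟩⟩
    rw [h1]
    simp
    ring
  · refine local_ineq hLO5 (lm := fun i => lam v y (a i)) hm (rk2_lift y D) hent (hlift v)
      (fun i => (hLO3 k K htr n m (a i) 0 S y D hD hm (hO i) v).1) (fun i s => ?_) (hI v) hwr hG hz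
      hne
    have h1 := (hLO3 k K htr n m (a i) (Pi.single s 1) S y D hD hm (hO i) v).2.2
    rwa [bil_single] at h1

end Pool.Agent.H70.LT.CU5
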