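import Pool.Agent.H30.LT.Targets

/-!
# Board al_modules, row EX5: a polynomial of small degree with zeros of high order
-/

set_option autoImplicit false

namespace Pool.Agent.H70.LT.EX5

open MvPolynomial SC Pool.Agent.H27.LV Pool.Agent.H30.AV Pool.Agent.H30.AW Pool.Agent.H30.AX
  Pool.Agent.H30.LT

attribute [local instance] MvPolynomial.algebraMvPolynomial

section

variable {k : Type} [Field k] {n : ℕ} {P : Ideal (MvPolynomial (Zw n) k)}

/-- if all variables are in `P` then the quotient is algebraic -/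
private lemma trdeg_zero [P.IsPrime] (h : ∀ s, X s ∈ P) :
    Algebra.trdeg k (MvPolynomial (Zw n) k ⧸ P) = 0 := by
  have h1 : ∀ f : MvPolynomial (Zw n) k, ∃ a : k,
      Ideal.Quotient.mk P f = algebraMap k (MvPolynomial (Zw n) k ⧸ P) a := by
    intro f
    induction f using MvPolynomial.induction_on with
    | C a => exact ⟨a, rfl⟩
    | add p q hp hq =>
      obtain ⟨a, ha⟩ := hp
      obtain ⟨b, hb⟩ := hq
      refine ⟨a + b, ?_⟩
      rw [map_add, map_add, ha, hb]
    | mul_X p i _ =>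
      refine ⟨0, ?_⟩
      rw [map_mul, Ideal.Quotient.eq_zero_iff_mem.2 (h i), mul_zero, map_zero]
  have h2 : Algebra.IsAlgebraic k (MvPolynomial (Zw n) k ⧸ P) := by
    refine ⟨fun x => ?_⟩
    obtain ⟨f, rfl⟩ := Ideal.Quotient.mk_surjective x
    obtain ⟨a, ha⟩ := h1 f
    rw [ha]
    exact isAlgebraic_algebraMap a
  exact _root_.trdeg_eq_zero

end

private lemma raise {k F : Type} [Field k] [Field F] [Algebra k F] {n : ℕ} {W : Zw n → F}
    {w q M : ℕ} (p : Zw n) (j : ℕ) {G : MvPolynomial (Lw q n) F} (hG : G ∈ VM k W w q M) :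
    C (W p ^ j) * G ∈ VM k W w q (M + j) := by
  obtain ⟨h1, h2⟩ := Submodule.mem_inf.1 hG
  refine Submodule.mem_inf.2 ⟨?_, ?_⟩
  · intro μ
    have h3 : coeff μ G ∈ Uf k W M := h1 μ
    rw [coeff_C_mul]
    unfold Uf at h3 ⊢
    rw [Submodule.mem_map] at h3 ⊢
    obtain ⟨f, hf, hf'⟩ := h3
    refine ⟨f * X p ^ j, ?_, ?_⟩
    · have hf1 : f.IsHomogeneous M := (mem_homogeneousSubmodule M f).1 hf
      exact (mem_homogeneousSubmodule (M + j) _).2 (by
        have := hf1.mul ((isHomogeneous_X k p).pow j)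
        rwa [one_mul] at this)
    · have hf2 : aeval W f = coeff μ G := hf'
      show aeval W (f * X p ^ j) = W p ^ j * coeff μ G
      rw [map_mul, map_pow, aeval_X, hf2, mul_comm]
  · have h4 : G ∈ (⨅ i, nI W q i ^ w : Ideal (MvPolynomial (Lw q n) F)) := h2
    show C (W p ^ j) * G ∈ (⨅ i, nI W q i ^ w : Ideal (MvPolynomial (Lw q n) F))
    exact Ideal.mul_mem_left _ _ h4

theorem pf_EX5 (hSTP : T_STP) (hFIN : T_FIN) (hHIL : T_HIL) (hNM5 : T_NM5) : T_EX5 := by
  intro k _ _ m n r q β P hm hr hβ hqq hP hH hA hPl htr F _ _ W hW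
  have := hP
  have : CharZero F := charZero_of_injective_algebraMap (algebraMap k F).injective
  have hRk : Rk2 W := by
    have h1 : ∀ i j, W (i, j) + W (j, i) = 0 := by
      intro i j
      have := (hW _).2 (hA i j)
      rwa [map_add, aeval_X, aeval_X] at this
    refine ⟨fun i => ?_, fun i j => eq_neg_of_add_eq_zero_left (h1 i j), fun i j l m => ?_⟩
    · have h2 := h1 i i
      rw [← two_mul] at h2
      exact (mul_eq_zero.1 h2).resolve_left two_ne_zero
    · have := (hW _).2 (hPl i j l m)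
      simpa only [map_add, map_sub, map_mul, aeval_X] using this
  have hW0 : W ≠ 0 := by
    intro h
    have h1 : ∀ s, (X s : MvPolynomial (Zw n) k) ∈ P := by
      intro s
      rw [← hW, aeval_X, h]
      rfl
    have h2 := trdeg_zero h1
    rw [htr] at h2
    have h3 : β + 2 = 0 := by exact_mod_cast h2
    omega
  obtain ⟨e, c, he, hE⟩ := hHIL k n β P hP hH htr
  have hE' := hE F W hW
  obtain ⟨w, hw, hN⟩ := hNM5 m r β q c e hm hr hβ hqq he
  have hS : ∀ j, ∃ ρ x : ℕ → ℕ, (∀ M, hq k W w j M ≤ hq k W w (j + 1) M + w * (w + 1) / 2 * ρ M) ∧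
      ρ 0 ≤ x 0 ∧ x 0 ≤ hq k W w j 0 ∧
      ∀ M, ρ (M + 1) + x M ≤ x (M + 1) ∧ x (M + 1) + hq k W w j M ≤ hq k W w j (M + 1) :=
    fun j => (hSTP k F n W hRk hW0 w j).2
  choose ρ x h1 h2 h3 h4 using hS
  obtain ⟨M, hM1, hM2⟩ := hN (fun j M => hq k W w j M) ρ x
    (fun M => by
      show e * Fintype.card (Mon (β + 2) M) ≤ hq k W w 0 (M + c)
      rw [(hFIN k F n W w q (M + c)).2]
      exact (hE' M).1)
    (fun M => by
      show hq k W w 0 M ≤ e * Fintype.card (Mon (β + 2) (M + c))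
      rw [(hFIN k F n W w q M).2]
      exact (hE' M).2)
    (fun j M => (hSTP k F n W hRk hW0 w j).1 M) h1 (fun j => ⟨h2 j, h3 j⟩) h4
  have hne : VM k W w q M ≠ ⊥ := by
    intro h
    have h5 : 0 < Module.finrank (MvPolynomial (Lw q n) k) ↥(VM k W w q M) := hM1
    rw [h, finrank_bot] at h5
    exact lt_irrefl _ h5
  obtain ⟨G, hG, hG0⟩ := Submodule.exists_mem_ne_zero_of_ne_bot hne
  by_cases hwr : w * r ≤ M
  · exact ⟨M, w, G, hw, hwr, hM2, hG0, hG⟩
  push Not at hwr
  obtain ⟨p, hp⟩ : ∃ p, W p ≠ 0 := by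
    by_contra h
    push Not at h
    exact hW0 (funext h)
  have hmr : 2 * m * r < (m - 1) * q := by
    by_contra h
    push Not at h
    obtain ⟨m', rfl⟩ : ∃ m', m = m' + 2 := ⟨m - 2, by omega⟩
    have e1 : m' + 2 - 1 = m' + 1 := by omega
    rw [e1] at h hqq
    have h5 : (m' + 1) ^ 2 * q ≤ (m' + 1) * (2 * (m' + 2) * r) := by
      calc (m' + 1) ^ 2 * q = (m' + 1) * ((m' + 1) * q) := by ring
        _ ≤ (m' + 1) * (2 * (m' + 2) * r) := Nat.mul_le_mul_left _ h
    nlinarith [Nat.zero_le m', Nat.zero_le (m' * m' * r), Nat.zero_le (m' * r)]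
  refine ⟨w * r, w, C (W p ^ (w * r - M)) * G, hw, le_rfl, ?_, ?_, ?_⟩
  · calc 2 * m * (w * r) = (2 * m * r) * w := by ring
      _ < (m - 1) * q * w := Nat.mul_lt_mul_of_pos_right hmr (by omega)
  · exact mul_ne_zero (by rw [Ne, C_eq_zero]; exact pow_ne_zero _ hp) hG0
  · have h6 := raise p (w * r - M) hG
    rwa [Nat.add_sub_cancel' hwr.le] at h6

end Pool.Agent.H70.LT.EX5
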